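import Mathlib
import Pool.Agent.H925R3.RR.Stubs

namespace Pool.Agent.H92.RRPDB

open Pool.Agent.H925R3.DC Pool.Agent.H925R3.RR

theorem val (a b : ℤ) (p : ℕ) (hp : p.Prime) (h2 : p ≠ 2) (x y : ℚ)
    (h : y * (4 * (x ^ 3 + a * x + b)) = x ^ 4 - 2 * a * x ^ 2 - 8 * b * x + a ^ 2)
    (hx : p ∣ x.den) : padicValNat p y.den = padicValNat p x.den := by
  have hpf : Fact p.Prime := ⟨hp⟩
  have hpi : Prime (p : ℤ) := Nat.prime_iff_prime_int.1 hp
  have hB0 : (x.den : ℚ) ≠ 0 := by exact_mod_cast x.den_nz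
  have hxe : x = x.num / x.den := (Rat.num_div_den x).symm
  have hpB : (p : ℤ) ∣ (x.den : ℤ) := Int.natCast_dvd_natCast.2 hx
  have hpA : ¬ (p : ℤ) ∣ x.num := by
    intro hA
    have h1 : p ∣ x.num.natAbs := Int.natCast_dvd.1 hA
    have h3 := Nat.dvd_gcd h1 hx
    rw [x.reduced] at h3
    exact hp.one_lt.ne' (Nat.dvd_one.1 h3)
  have hG : ¬ (p : ℤ) ∣ (x.num ^ 3 + a * x.num * (x.den : ℤ) ^ 2 + b * (x.den : ℤ) ^ 3) := by
    intro hG
    have h1 : (p : ℤ) ∣ a * x.num * (x.den : ℤ) ^ 2 + b * (x.den : ℤ) ^ 3 :=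
      dvd_add (dvd_mul_of_dvd_right (dvd_pow hpB (by norm_num)) _)
        (dvd_mul_of_dvd_right (dvd_pow hpB (by norm_num)) _)
    have h3 : (p : ℤ) ∣ x.num ^ 3 := by
      have := dvd_sub hG h1
      rwa [add_assoc, add_sub_cancel_right] at this
    exact hpA (hpi.dvd_of_dvd_pow h3)
  have hF : ¬ (p : ℤ) ∣ (x.num ^ 4 + (- 2 * a * x.num ^ 2 * (x.den : ℤ) -
      8 * b * x.num * (x.den : ℤ) ^ 2 + a ^ 2 * (x.den : ℤ) ^ 3) * x.den) := by
    intro hF
    have h3 : (p : ℤ) ∣ x.num ^ 4 := by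
      have := dvd_sub hF (dvd_mul_of_dvd_right hpB (- 2 * a * x.num ^ 2 * (x.den : ℤ) -
        8 * b * x.num * (x.den : ℤ) ^ 2 + a ^ 2 * (x.den : ℤ) ^ 3))
      rwa [add_sub_cancel_right] at this
    exact hpA (hpi.dvd_of_dvd_pow h3)
  have hkey : y * (((4 : ℤ) : ℚ) * (((x.den : ℤ) : ℚ) *
      ((x.num ^ 3 + a * x.num * (x.den : ℤ) ^ 2 + b * (x.den : ℤ) ^ 3 : ℤ) : ℚ))) =
      ((x.num ^ 4 + (- 2 * a * x.num ^ 2 * (x.den : ℤ) -
      8 * b * x.num * (x.den : ℤ) ^ 2 + a ^ 2 * (x.den : ℤ) ^ 3) * x.den : ℤ) : ℚ) := by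
    have e1 : (x.num : ℚ) = x * x.den := (Rat.mul_den_eq_num x).symm
    push_cast
    rw [e1]
    linear_combination (x.den : ℚ) ^ 4 * h
  generalize hGG : (x.num ^ 3 + a * x.num * (x.den : ℤ) ^ 2 + b * (x.den : ℤ) ^ 3) = G at hG hkey
  generalize hFF : (x.num ^ 4 + (- 2 * a * x.num ^ 2 * (x.den : ℤ) -
      8 * b * x.num * (x.den : ℤ) ^ 2 + a ^ 2 * (x.den : ℤ) ^ 3) * x.den) = F at hF hkey
  have hG0 : (G : ℚ) ≠ 0 := by
    intro h0
    have : G = 0 := by exact_mod_cast h0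
    exact hG (by rw [this]; exact dvd_zero _)
  have hF0 : (F : ℚ) ≠ 0 := by
    intro h0
    have : F = 0 := by exact_mod_cast h0
    exact hF (by rw [this]; exact dvd_zero _)
  have hy0 : y ≠ 0 := by
    rintro rfl
    rw [zero_mul] at hkey
    exact hF0 hkey.symm
  have hB0' : (((x.den : ℤ) : ℚ)) ≠ 0 := by exact_mod_cast x.den_nz
  have h4 : ¬ (p : ℤ) ∣ (4 : ℤ) := by
    intro h4
    have h5 : p ∣ 4 := by exact_mod_cast h4
    have h6 : p ∣ 2 := hp.dvd_of_dvd_pow (show p ∣ 2 ^ 2 by norm_num; exact h5)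
    exact h2 ((Nat.prime_dvd_prime_iff_eq hp Nat.prime_two).1 h6)
  have hv := congrArg (padicValRat p) hkey
  rw [padicValRat.mul hy0 (mul_ne_zero (by norm_num) (mul_ne_zero hB0' hG0)),
    padicValRat.mul (by norm_num) (mul_ne_zero hB0' hG0), padicValRat.mul hB0' hG0,
    padicValRat.of_int, padicValRat.of_int, padicValRat.of_int, padicValRat.of_int,
    padicValInt.eq_zero_of_not_dvd h4, padicValInt.eq_zero_of_not_dvd hG,
    padicValInt.eq_zero_of_not_dvd hF, padicValInt.of_nat] at hv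
  have he : 1 ≤ padicValNat p x.den := one_le_padicValNat_of_dvd x.den_nz hx
  rw [padicValRat] at hv
  by_cases hn : (p : ℤ) ∣ y.num
  · have hnd : ¬ p ∣ y.den := by
      intro hd
      have h1 : p ∣ y.num.natAbs := Int.natCast_dvd.1 hn
      have h3 := Nat.dvd_gcd h1 hd
      rw [y.reduced] at h3
      exact hp.one_lt.ne' (Nat.dvd_one.1 h3)
    rw [padicValNat.eq_zero_of_not_dvd hnd] at hv
    simp only [Nat.cast_zero, zero_add, add_zero] at hv
    omega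
  · rw [padicValInt.eq_zero_of_not_dvd hn] at hv
    simp only [Nat.cast_zero, zero_add, add_zero] at hv
    omega

theorem pdb : Pool.Agent.H925R3.RR.PDB := by
  classical
  intro hfdb a b p hp h2 P hP hPP hx
  obtain ⟨-, h⟩ := hfdb ℚ (a : ℚ) (b : ℚ) P hP hPP
  exact val a b p hp h2 (xc P) (xc (P + P)) h hx

end Pool.Agent.H92.RRPDB
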